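import Pool.Agent.Y171.CG.Tool

/-!
# Cryptogenography, two players: `J g 2 = 1` and `Wa g 2 = (log 2) / 2` for `g 2 = 1 / 2`
-/

open MeasureTheory Finset Set Filter Topology
open Pool.Agent.Y171.CG

namespace Pool.Agent.Y366.CG

theorem hit_iff (g : ℕ → ℝ) (hg : g 2 = 1 / 2) (z : ℝ) (u : Fin 2 → ℝ) :
    Hit g (fun _ => 1) z u ↔ ∀ i, u i * z < 1 / 2 := by
  unfold Hit
  constructor
  · rintro ⟨r, h2, hr⟩ i
    have h1 := cnt_le (fun i : Fin 2 => g r * (fun _ : Fin 2 => (1 : ℝ)) i) z u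
    have hr2 : r = 2 := le_antisymm (hr.trans h1) h2
    subst hr2
    have h3 : cnt (fun i : Fin 2 => g 2 * (fun _ : Fin 2 => (1 : ℝ)) i) z u = 2 :=
      le_antisymm h1 hr
    unfold cnt at h3
    have h4 : (Finset.univ.filter fun i : Fin 2 => u i * z < g 2 * 1) = Finset.univ := by
      apply Finset.eq_univ_of_card
      rw [Fintype.card_fin]
      exact h3
    have h5 := Finset.mem_univ i
    rw [← h4, Finset.mem_filter] at h5
    have h6 := h5.2
    rw [hg] at h6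
    linarith
  · intro h
    refine ⟨2, le_refl _, ?_⟩
    unfold cnt
    have h4 : (Finset.univ.filter fun i : Fin 2 => u i * z < g 2 * 1) = Finset.univ := by
      apply Finset.filter_true_of_mem
      intro i _
      rw [hg]
      have := h i
      linarith
    have h5 : (2 : ℕ) ≤ (Finset.univ.filter fun i : Fin 2 => u i * z < g 2 * 1).card := by
      rw [h4]; simp
    exact h5

theorem nu_real (S : Set ℝ) (hS : MeasurableSet S) : nu.real S = volume.real (S ∩ Ioo 0 1) := by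
  unfold nu
  rw [Measure.restrict_congr_set (Ioo_ae_eq_Icc (μ := volume) (a := (0 : ℝ)) (b := 1)).symm]
  rw [measureReal_def, measureReal_def, Measure.restrict_apply hS]

theorem cube_real (S : Set ℝ) : (cube 2).real {u | ∀ i, u i ∈ S} = (nu.real S) ^ 2 := by
  have h : {u : Fin 2 → ℝ | ∀ i, u i ∈ S} = Set.pi Set.univ fun _ => S := by
    ext u; simp
  rw [h, measureReal_def]
  unfold cube
  rw [Measure.pi_pi, Finset.prod_const, ENNReal.toReal_pow, measureReal_def]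
  simp

theorem key {z : ℝ} (hz : 0 < z) (x : ℝ) : x * z < 1 / 2 ↔ x < 1 / (2 * z) := by
  have h : x < 1 / (2 * z) ↔ x * (2 * z) < 1 := lt_div_iff₀ (by positivity)
  rw [h]
  constructor <;> intro h <;> linarith

theorem vol_lt {z : ℝ} (hz : 0 < z) : nu.real {t : ℝ | t * z < 1 / 2} = min (1 / (2 * z)) 1 := by
  rw [nu_real _ (measurableSet_lt (by fun_prop) measurable_const)]
  have h : {t : ℝ | t * z < 1 / 2} ∩ Ioo 0 1 = Ioo 0 (min (1 / (2 * z)) 1) := by
    ext t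
    have h1 := key hz t
    simp only [Set.mem_inter_iff, Set.mem_ofPred_eq, Set.mem_Ioo, h1, lt_min_iff]
    tauto
  rw [h, Real.volume_real_Ioo_of_le (by positivity)]
  ring

theorem vol_gt {z : ℝ} (hz : 0 < z) :
    nu.real {t : ℝ | (1 - t) * z < 1 / 2} = min (1 / (2 * z)) 1 := by
  rw [nu_real _ (measurableSet_lt (by fun_prop) measurable_const)]
  have hb : 0 < 1 / (2 * z) := by positivity
  have h : {t : ℝ | (1 - t) * z < 1 / 2} ∩ Ioo 0 1 = Ioo (max (1 - 1 / (2 * z)) 0) 1 := by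
    ext t
    have h1 : (1 - t) * z < 1 / 2 ↔ 1 - 1 / (2 * z) < t := by
      have : 1 - 1 / (2 * z) < t ↔ 1 - t < 1 / (2 * z) := by
        constructor <;> intro h <;> linarith
      rw [this, key hz]
    simp only [Set.mem_inter_iff, Set.mem_ofPred_eq, Set.mem_Ioo, h1, max_lt_iff]
    tauto
  rw [h, Real.volume_real_Ioo_of_le (max_le (by linarith) (by norm_num))]
  rcases le_total (1 / (2 * z)) 1 with h1 | h1
  · rw [min_eq_left h1, max_eq_left (by linarith)]; ring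
  · rw [min_eq_right h1, max_eq_right (by linarith)]; ring

theorem vol_both {z : ℝ} (hz : 0 < z) :
    nu.real {t : ℝ | t * z < 1 / 2 ∧ (1 - t) * z < 1 / 2} =
      max (min (1 / (2 * z)) 1 - max (1 - 1 / (2 * z)) 0) 0 := by
  have hmb : MeasurableSet {t : ℝ | t * z < 1 / 2 ∧ (1 - t) * z < 1 / 2} := by
    have h1 : MeasurableSet {t : ℝ | t * z < 1 / 2} :=
      measurableSet_lt (by fun_prop) measurable_const
    have h2 : MeasurableSet {t : ℝ | (1 - t) * z < 1 / 2} :=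
      measurableSet_lt (by fun_prop) measurable_const
    exact h1.inter h2
  rw [nu_real _ hmb]
  have hb : 0 < 1 / (2 * z) := by positivity
  have h : {t : ℝ | t * z < 1 / 2 ∧ (1 - t) * z < 1 / 2} ∩ Ioo 0 1 =
      Ioo (max (1 - 1 / (2 * z)) 0) (min (1 / (2 * z)) 1) := by
    ext t
    have h0 := key hz t
    have h1 : (1 - t) * z < 1 / 2 ↔ 1 - 1 / (2 * z) < t := by
      have : 1 - 1 / (2 * z) < t ↔ 1 - t < 1 / (2 * z) := by
        constructor <;> intro h <;> linarith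
      rw [this, key hz]
    simp only [Set.mem_inter_iff, Set.mem_ofPred_eq, Set.mem_Ioo, h0, h1, max_lt_iff, lt_min_iff]
    tauto
  rw [h, Real.volume_real_Ioo]

theorem F_two (g : ℕ → ℝ) (hg : g 2 = 1 / 2) {z : ℝ} (hz : 0 < z) :
    1 - F g 2 z = (min (1 / (2 * z)) 1) ^ 2 := by
  have h1 : {u : Fin 2 → ℝ | ¬ Hit g (fun _ => 1) z u} = {u | Hit g (fun _ => 1) z u}ᶜ := rfl
  unfold F
  rw [h1, probReal_compl_eq_one_sub (measurableSet_hit _ _ _), sub_sub_cancel]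
  have h2 : {u : Fin 2 → ℝ | Hit g (fun _ => 1) z u} =
      {u | ∀ i, u i ∈ {t : ℝ | t * z < 1 / 2}} := by
    ext u
    exact hit_iff g hg z u
  rw [h2, cube_real, vol_lt hz]

theorem B_two (g : ℕ → ℝ) (hg : g 2 = 1 / 2) {z : ℝ} (hz : 0 < z) :
    B g (fun (_ : Bool) (_ : Fin 2) => (1 : ℝ)) z = 2 * (min (1 / (2 * z)) 1) ^ 2 -
      (max (min (1 / (2 * z)) 1 - max (1 - 1 / (2 * z)) 0) 0) ^ 2 := by
  unfold B
  have h1 : {u : Fin 2 → ℝ | Hit g ((fun (_ : Bool) (_ : Fin 2) => (1 : ℝ)) false) z u ∨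
      Hit g ((fun (_ : Bool) (_ : Fin 2) => (1 : ℝ)) true) z (fun i => 1 - u i)} =
      {u | ∀ i, u i ∈ {t : ℝ | t * z < 1 / 2}} ∪ {u | ∀ i, u i ∈ {t : ℝ | (1 - t) * z < 1 / 2}} := by
    ext u
    have e1 := hit_iff g hg z u
    have e2 := hit_iff g hg z (fun i => 1 - u i)
    simp only [Set.mem_ofPred_eq, Set.mem_union]
    rw [e1, e2]
  have hm : ∀ S : Set ℝ, MeasurableSet S → MeasurableSet {u : Fin 2 → ℝ | ∀ i, u i ∈ S} := by
    intro S hS
    have : {u : Fin 2 → ℝ | ∀ i, u i ∈ S} = Set.pi Set.univ fun _ => S := by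
      ext u; simp
    rw [this]
    exact MeasurableSet.univ_pi fun _ => hS
  have hm2 := hm {t : ℝ | (1 - t) * z < 1 / 2} (measurableSet_lt (by fun_prop) measurable_const)
  rw [h1]
  have h3 := measureReal_union_add_inter (μ := cube 2)
    (s := {u | ∀ i, u i ∈ {t : ℝ | t * z < 1 / 2}}) hm2
  have h4 : {u : Fin 2 → ℝ | ∀ i, u i ∈ {t : ℝ | t * z < 1 / 2}} ∩
      {u | ∀ i, u i ∈ {t : ℝ | (1 - t) * z < 1 / 2}} =
      {u | ∀ i, u i ∈ {t : ℝ | t * z < 1 / 2 ∧ (1 - t) * z < 1 / 2}} := by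
    ext u
    simp only [Set.mem_inter_iff, Set.mem_ofPred_eq]
    exact forall_and.symm
  rw [h4, cube_real, cube_real, cube_real, vol_lt hz, vol_gt hz, vol_both hz] at h3
  linarith

theorem tail_int {a c : ℝ} (hc : 0 < c) :
    IntegrableOn (fun z : ℝ => a / z ^ 2) (Ioi c) ∧ ∫ z in Ioi c, a / z ^ 2 = a / c := by
  have h1 := integrableOn_Ioi_rpow_of_lt (show (-2 : ℝ) < -1 by norm_num) hc
  have h2 := integral_Ioi_rpow_of_lt (show (-2 : ℝ) < -1 by norm_num) hc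
  have h3 : ∀ z ∈ Ioi c, a * z ^ (-2 : ℝ) = a / z ^ 2 := by
    intro z hz
    have hz0 : 0 < z := hc.trans hz
    have : z ^ (-2 : ℝ) = (z ^ 2)⁻¹ := by
      rw [Real.rpow_neg hz0.le]
      norm_num
    rw [this, div_eq_mul_inv]
  have h4 : IntegrableOn (fun z : ℝ => a * z ^ (-2 : ℝ)) (Ioi c) := h1.const_mul a
  refine ⟨h4.congr_fun h3 measurableSet_Ioi, ?_⟩
  rw [← setIntegral_congr_fun measurableSet_Ioi h3, integral_const_mul, h2]
  have : (-2 : ℝ) + 1 = -1 := by norm_num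
  rw [this, Real.rpow_neg_one]
  field_simp

theorem J_two (g : ℕ → ℝ) (hg : g 2 = 1 / 2) : J g 2 = 1 := by
  unfold J
  rw [← Ioc_union_Ioi_eq_Ioi (show (0 : ℝ) ≤ 1 / 2 by norm_num)]
  have e1 : ∀ z ∈ Ioc (0 : ℝ) (1 / 2), (1 : ℝ) = 1 - F g 2 z := by
    intro z hz
    rw [F_two g hg hz.1]
    have h1 : 1 ≤ 1 / (2 * z) := by
      rw [le_div_iff₀ (by linarith [hz.1])]
      linarith [hz.2]
    rw [min_eq_right h1]; norm_num
  have e2 : ∀ z ∈ Ioi (1 / 2 : ℝ), (1 / 4 : ℝ) / z ^ 2 = 1 - F g 2 z := by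
    intro z hz
    have hz' : (1 / 2 : ℝ) < z := hz
    have hz0 : 0 < z := by linarith
    rw [F_two g hg hz0]
    have h1 : 1 / (2 * z) ≤ 1 := by
      rw [div_le_iff₀ (by linarith)]
      linarith
    rw [min_eq_left h1]
    field_simp
    norm_num
  obtain ⟨t1, t2⟩ := tail_int (a := 1 / 4) (c := 1 / 2) (by norm_num)
  have i1 : IntegrableOn (fun z => 1 - F g 2 z) (Ioc (0 : ℝ) (1 / 2)) := by
    refine IntegrableOn.congr_fun ?_ e1 measurableSet_Ioc
    exact integrableOn_const (by simp)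
  have i2 : IntegrableOn (fun z => 1 - F g 2 z) (Ioi (1 / 2 : ℝ)) :=
    t1.congr_fun e2 measurableSet_Ioi
  have hd : Disjoint (Ioc (0 : ℝ) (1 / 2)) (Ioi (1 / 2 : ℝ)) :=
    Set.disjoint_left.2 fun z h1 h2 => absurd h1.2 (not_le.2 h2)
  rw [setIntegral_union hd
    measurableSet_Ioi i1 i2, ← setIntegral_congr_fun measurableSet_Ioc e1,
    ← setIntegral_congr_fun measurableSet_Ioi e2, t2]
  simp
  norm_num

theorem B_int (g : ℕ → ℝ) (hg : g 2 = 1 / 2) :
    ∫ z in Ioi (0 : ℝ), B g (fun (_ : Bool) (_ : Fin 2) => (1 : ℝ)) z = 2 * Real.log 2 := by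
  set b := B g (fun (_ : Bool) (_ : Fin 2) => (1 : ℝ)) with hb
  have e1 : ∀ z ∈ Ioc (0 : ℝ) (1 / 2), (1 : ℝ) = b z := by
    intro z hz
    rw [hb, B_two g hg hz.1]
    have h1 : 1 ≤ 1 / (2 * z) := by
      rw [le_div_iff₀ (by linarith [hz.1])]
      linarith [hz.2]
    rw [min_eq_right h1, max_eq_right (show 1 - 1 / (2 * z) ≤ 0 by linarith)]
    norm_num
  have e2 : ∀ z ∈ Ioc (1 / 2 : ℝ) 1, 2 / z - 1 / (2 * z ^ 2) - 1 = b z := by
    intro z hz
    have hz' : (1 / 2 : ℝ) < z := hz.1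
    have hz0 : 0 < z := by linarith
    rw [hb, B_two g hg hz0]
    have h1 : 1 / (2 * z) ≤ 1 := by
      rw [div_le_iff₀ (by linarith)]
      linarith
    have h2 : 1 / 2 ≤ 1 / (2 * z) := by
      rw [le_div_iff₀ (by linarith)]
      linarith [hz.2]
    rw [min_eq_left h1, max_eq_left (show (0 : ℝ) ≤ 1 - 1 / (2 * z) by linarith),
      max_eq_left (show (0 : ℝ) ≤ 1 / (2 * z) - (1 - 1 / (2 * z)) by linarith)]
    field_simp
    ring
  have e3 : ∀ z ∈ Ioi (1 : ℝ), (1 / 2 : ℝ) / z ^ 2 = b z := by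
    intro z hz
    have hz' : (1 : ℝ) < z := hz
    have hz0 : 0 < z := by linarith
    rw [hb, B_two g hg hz0]
    have h1 : 1 / (2 * z) ≤ 1 / 2 := by
      rw [div_le_iff₀ (by linarith)]
      linarith
    rw [min_eq_left (show 1 / (2 * z) ≤ 1 by linarith),
      max_eq_left (show (0 : ℝ) ≤ 1 - 1 / (2 * z) by linarith),
      max_eq_right (show 1 / (2 * z) - (1 - 1 / (2 * z)) ≤ 0 by linarith)]
    field_simp
    norm_num
  have hG : ∀ z ∈ Set.uIcc (1 / 2 : ℝ) 1,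
      HasDerivAt (fun z : ℝ => 2 * Real.log z + 1 / 2 * z⁻¹ - z)
        (2 / z - 1 / (2 * z ^ 2) - 1) z := by
    intro z hz
    rw [Set.uIcc_of_le (by norm_num)] at hz
    have hz0 : z ≠ 0 := by linarith [hz.1]
    have h1 := ((Real.hasDerivAt_log hz0).const_mul 2).add ((hasDerivAt_inv hz0).const_mul (1 / 2))
    have h2 := h1.sub (hasDerivAt_id z)
    have h3 : 2 * z⁻¹ + 1 / 2 * -(z ^ 2)⁻¹ - 1 = 2 / z - 1 / (2 * z ^ 2) - 1 := by
      field_simp
      ring
    rw [← h3]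
    exact h2
  have hcont : ContinuousOn (fun z : ℝ => 2 / z - 1 / (2 * z ^ 2) - 1) (Set.uIcc (1 / 2 : ℝ) 1) := by
    rw [Set.uIcc_of_le (by norm_num)]
    have hne : ∀ z ∈ Icc (1 / 2 : ℝ) 1, z ≠ 0 := fun z hz => by linarith [hz.1]
    refine ((continuousOn_const.div continuousOn_id hne).sub
      (continuousOn_const.div (by fun_prop) ?_)).sub continuousOn_const
    intro z hz
    have := hne z hz
    positivity
  have hint := hcont.intervalIntegrable (μ := volume)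
  have hval := intervalIntegral.integral_eq_sub_of_hasDerivAt hG hint
  rw [intervalIntegral.integral_of_le (by norm_num)] at hval
  have hint2 : IntegrableOn (fun z : ℝ => 2 / z - 1 / (2 * z ^ 2) - 1) (Ioc (1 / 2 : ℝ) 1) := by
    rw [intervalIntegrable_iff_integrableOn_Ioc_of_le (by norm_num)] at hint
    exact hint
  obtain ⟨t1, t2⟩ := tail_int (a := 1 / 2) (c := 1) (by norm_num)
  have i1 : IntegrableOn b (Ioc (0 : ℝ) (1 / 2)) := by
    refine IntegrableOn.congr_fun ?_ e1 measurableSet_Ioc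
    exact integrableOn_const (by simp)
  have i2 : IntegrableOn b (Ioc (1 / 2 : ℝ) 1) := hint2.congr_fun e2 measurableSet_Ioc
  have i3 : IntegrableOn b (Ioi (1 : ℝ)) := t1.congr_fun e3 measurableSet_Ioi
  have i23 : IntegrableOn b (Ioi (1 / 2 : ℝ)) := by
    rw [← Ioc_union_Ioi_eq_Ioi (show (1 / 2 : ℝ) ≤ 1 by norm_num)]
    exact i2.union i3
  have s1 : ∫ z in Ioi (0 : ℝ), b z = (∫ z in Ioc (0 : ℝ) (1 / 2), b z) +
      ∫ z in Ioi (1 / 2 : ℝ), b z := by
    rw [← Ioc_union_Ioi_eq_Ioi (show (0 : ℝ) ≤ 1 / 2 by norm_num)]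
    exact setIntegral_union (Set.disjoint_left.2 fun z h1 h2 => absurd h1.2 (not_le.2 h2))
      measurableSet_Ioi i1 i23
  have s2 : ∫ z in Ioi (1 / 2 : ℝ), b z = (∫ z in Ioc (1 / 2 : ℝ) 1, b z) +
      ∫ z in Ioi (1 : ℝ), b z := by
    rw [← Ioc_union_Ioi_eq_Ioi (show (1 / 2 : ℝ) ≤ 1 by norm_num)]
    exact setIntegral_union (Set.disjoint_left.2 fun z h1 h2 => absurd h1.2 (not_le.2 h2))
      measurableSet_Ioi i2 i3
  rw [s1, s2, ← setIntegral_congr_fun measurableSet_Ioc e1,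
    ← setIntegral_congr_fun measurableSet_Ioc e2, ← setIntegral_congr_fun measurableSet_Ioi e3,
    t2, hval]
  have hl : Real.log (1 / 2) = - Real.log 2 := by
    rw [one_div, Real.log_inv]
  have h1 : ∫ _z in Ioc (0 : ℝ) (1 / 2), (1 : ℝ) = 1 / 2 := by simp
  rw [h1, hl, Real.log_one]
  norm_num
  ring

theorem t : S_TWO := by
  intro g hg
  refine ⟨J_two g hg, ?_⟩
  unfold Wa
  rw [B_int g hg]
  push_cast
  ring

end Pool.Agent.Y366.CG
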